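import Mathlib

/-!
# Absolute values of algebraic integers
-/

namespace Pool.Agent.N178.GT

/-- An absolute value with a value less than one at a natural number is at most one at all integers. -/
theorem abs_int_le (w : AbsoluteValue ℂ ℝ) {q : ℕ} (hq : q ≠ 0) (hw : w q < 1) (m : ℤ) :
    w (m : ℂ) ≤ 1 := by
  let f : AbsoluteValue ℚ ℝ := w.comp (f := Rat.castHom ℂ) (Rat.castHom ℂ).injective
  have hf : ∀ r : ℚ, f r = w (r : ℂ) := fun r => rfl
  have h1 : ∀ n : ℕ, f n ≤ 1 := by
    by_contra hcon
    have hq1 : 1 < q := by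
      rcases Nat.lt_or_ge 1 q with h | h
      · exact h
      · have : q = 1 := by omega
        rw [this, Nat.cast_one, map_one] at hw
        exact absurd hw (lt_irrefl _)
    have h2 := Rat.AbsoluteValue.one_lt_of_not_bounded hcon hq1
    rw [hf, Rat.cast_natCast] at h2
    exact absurd hw (not_lt.2 h2.le)
  have h2 : ∀ n : ℕ, w (n : ℂ) ≤ 1 := fun n => by
    have := h1 n
    rwa [hf, Rat.cast_natCast] at this
  rcases Int.natAbs_eq m with h | h
  · rw [h, Int.cast_natCast]
    exact h2 _
  · rw [h, Int.cast_neg, Int.cast_natCast, AbsoluteValue.map_neg]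
    exact h2 _

/-- Algebraic integers have absolute value at most one. -/
theorem abs_integral_le (w : AbsoluteValue ℂ ℝ) {q : ℕ} (hq : q ≠ 0) (hw : w q < 1) {z : ℂ}
    (hz : IsIntegral ℤ z) : w z ≤ 1 := by
  classical
  obtain ⟨p, hp, hpz⟩ := hz
  have hint := abs_int_le w hq hw
  by_contra hcon
  have hz1 : 1 < w z := not_le.1 hcon
  have hz0 : 0 ≤ w z := w.nonneg z
  -- the bound
  have hb : ∀ N : ℕ, w z ^ N ≤ ∑ k ∈ Finset.range p.natDegree, w z ^ k := by
    intro N
    have h1 : z ^ N = Polynomial.aeval z (Polynomial.X ^ N %ₘ p) := by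
      have h2 := Polynomial.modByMonic_add_div (Polynomial.X ^ N : Polynomial ℤ) p
      have h3 := congrArg (Polynomial.aeval z) h2
      rw [map_add, map_mul, map_pow, Polynomial.aeval_X] at h3
      have h4 : Polynomial.aeval z p = 0 := hpz
      rw [h4, zero_mul, add_zero] at h3
      exact h3.symm
    by_cases hp1 : p = 1
    · exfalso
      rw [hp1] at hpz
      simp at hpz
    have hdeg : (Polynomial.X ^ N %ₘ p).natDegree < p.natDegree :=
      Polynomial.natDegree_modByMonic_lt _ hp hp1
    rw [← map_pow, h1, Polynomial.aeval_eq_sum_range' hdeg]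
    refine (w.sum_le _ _).trans (Finset.sum_le_sum fun k _ => ?_)
    rw [zsmul_eq_mul, map_mul, map_pow]
    have := hint ((Polynomial.X ^ N %ₘ p).coeff k)
    nlinarith [pow_nonneg hz0 k]
  -- powers are unbounded
  obtain ⟨N, hN⟩ := pow_unbounded_of_one_lt (∑ k ∈ Finset.range p.natDegree, w z ^ k) hz1
  exact absurd (hb N) (not_le.2 hN)

end Pool.Agent.N178.GT
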