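import Mathlib
import Pool.Agent.N178.HX.CovH

/-!
# Monomials of small level are given by correspondences
-/

set_option linter.unusedSectionVars false

namespace Pool.Agent.N178.GT

open Finset Module NumberField Pool.Agent.N178.HX Pool.Agent.R915 Pool.Agent.Y90
open Pool.Agent.H204R3.CM (IsCMType IsHodge)
open Pool.Agent.W547.KB Pool.Agent.W547.LD
open Pool.Agent.N830.HC (av inlH inrH inlH_hom inrH_hom pair_bij)

noncomputable section

variable {L : Type} [Field L] [NumberField L] [IsCMField L] [IsGalois ℚ L]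

/-- The span over `L` of the classes of degree `i` given by correspondences from `H_n`. -/
def CL (𝒜 : Sys) (X : CMAV) (L : Type) [Field L] [NumberField L] (n i : ℕ) :
    Submodule L ((Fin i → X.H1) → L) :=
  Submodule.span L {F | ∃ g ∈ Cor 𝒜 (av X) n i, ∀ v, F v = ((g v : ℚ) : L)}

/-- weights of the first factor -/
def wl (Y X : CMAV) (x : Wt Y L) : Wt (Y.prod X) L := ⟨Sum.inl x.1, x.2⟩

/-- weights of the second factor -/
def wr (Y X : CMAV) (x : Wt X L) : Wt (Y.prod X) L := ⟨Sum.inr x.1, x.2⟩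

/-- The monomial on a product. -/
theorem mono_prod {κ κ' : Type} [Fintype κ] [DecidableEq κ] [Fintype κ'] [DecidableEq κ']
    (Y X : CMAV) (I' : κ' → Wt Y L) (I : κ → Wt X L) (y : κ' → Y.H1) (x : κ → X.H1) :
    mono (Sum.elim (fun m => wl Y X (I' m)) (fun l => wr Y X (I l)))
      (Sum.elim (fun m => inlH Y X (y m)) (fun l => inrH Y X (x l))) = mono I' y * mono I x := by
  rw [mono_eq_det, mono_eq_det, mono_eq_det]
  have h1 : (Matrix.of fun k l => ev ((Sum.elim (fun m => inlH Y X (y m))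
      (fun l => inrH Y X (x l)) : κ' ⊕ κ → (Y.prod X).H1) k)
      ((Sum.elim (fun m => wl Y X (I' m)) (fun l => wr Y X (I l)) :
        κ' ⊕ κ → Wt (Y.prod X) L) l)) =
      Matrix.fromBlocks (Matrix.of fun k l => ev (y k) (I' l)) 0 0
        (Matrix.of fun k l => ev (x k) (I l)) := by
    ext s t
    rcases s with s | s <;> rcases t with t | t
    · rfl
    · exact map_zero (I t).2
    · exact map_zero (I' t).2
    · rfl
  rw [h1, Matrix.det_fromBlocks_zero₂₁]

/-- A monomial is a combination of the classes given by the traces. -/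
theorem mono_mem_of_trForm' {𝒜 : Sys} {Y X : CMAV} {n i : ℕ} (I' : Fin n → Wt Y L)
    (I : Fin i → Wt X L)
    (h : ∀ α : L, 𝒜.A (av (Y.prod X)) (Fin n ⊕ Fin i)
      (trForm α (Sum.elim (fun m => wl Y X (I' m)) (fun l => wr Y X (I l)))))
    (y : Fin n → Y.H1) (hy : mono I' y = 1) : mono I ∈ CL 𝒜 X L n i := by
  obtain ⟨r, a, b, hab⟩ := exists_dual L
  -- the classes
  let g : L → (av X).H [⋀^Fin i]→ₗ[ℚ] ℚ := fun α =>
    ((Algebra.trace ℚ L).comp (LinearMap.mulLeft ℚ α)).compAlternatingMap (monoAlt I)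
  have hg : ∀ α (x : Fin i → X.H1), g α x = Algebra.trace ℚ L (α * mono I x) := fun α x => rfl
  have hmem : ∀ α, g α ∈ Cor 𝒜 (av X) n i := by
    intro α
    refine Submodule.subset_span ⟨av Y, av (Y.prod X), inlH Y X, inrH Y X, _, y,
      inlH_hom Y X, inrH_hom Y X, pair_bij Y X, h α, fun x => ?_⟩
    have h1 := mono_prod Y X I' I y x
    rw [hy, one_mul] at h1
    exact (hg α x).trans ((congrArg (fun z => Algebra.trace ℚ L (α * z)) h1).symm.trans
      (trForm_apply α _ _).symm)
  have h1 : mono I = ∑ k, b k • (fun v : Fin i → X.H1 => ((g (a k) v : ℚ) : L)) := by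
    funext v
    rw [Finset.sum_apply]
    exact hab (mono I v)
  rw [h1]
  exact Submodule.sum_mem _ fun k _ => Submodule.smul_mem _ _
    (Submodule.subset_span ⟨g (a k), hmem (a k), fun v => rfl⟩)

/-- The unit vectors. -/
theorem mono_single {n : ℕ} (F : Fin n → CMPair) (φ : ∀ m, (F m).E →+* L) :
    mono (X := ⟨Fin n, F⟩) (fun m => (⟨m, φ m⟩ : Wt ⟨Fin n, F⟩ L))
      (fun m => (Pi.single m 1 : ∀ m, (F m).E)) = 1 := by
  rw [mono_eq_det]
  have h1 : (Matrix.of fun k l => ev (X := ⟨Fin n, F⟩) (Pi.single k 1 : ∀ m, (F m).E)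
      (⟨l, φ l⟩ : Wt ⟨Fin n, F⟩ L)) = (1 : Matrix (Fin n) (Fin n) L) := by
    ext k l
    rw [Matrix.of_apply]
    change φ l ((Pi.single k 1 : ∀ m, (F m).E) l) = _
    by_cases h : k = l
    · subst h
      rw [Pi.single_eq_same, map_one, Matrix.one_apply_eq]
    · rw [Pi.single_eq_of_ne (Ne.symm h), map_zero, Matrix.one_apply_ne h]
  rw [h1, Matrix.det_one]

end

end Pool.Agent.N178.GT
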