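import Mathlib
import Pool.Agent.N178.GT.Mono

/-!
# Monomials of small level: the sums property
-/

set_option linter.unusedSectionVars false

namespace Pool.Agent.N178.GT

open Finset Module NumberField Pool.Agent.N178.HX Pool.Agent.R915 Pool.Agent.Y90
open Pool.Agent.H204R3.CM (IsCMType IsHodge)
open Pool.Agent.W547.KB Pool.Agent.W547.LD Pool.Agent.N492.HX
open Pool.Agent.N830.HC (av inlH inrH inlH_hom inrH_hom pair_bij)
open Pool.Agent.W547.UB (restrict_aut)

noncomputable section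

variable {L : Type} [Field L] [NumberField L] [IsCMField L] [IsGalois ℚ L]

/-- Automorphisms of `ℂ` and the complex conjugation on CM fields. -/
theorem comp_conj (P : CMPair) (σ : ℂ ≃+* ℂ) (ψ : P.E →+* ℂ) :
    (σ : ℂ →+* ℂ).comp (ComplexEmbedding.conjugate ψ) =
      ComplexEmbedding.conjugate ((σ : ℂ →+* ℂ).comp ψ) := by
  ext x
  have h1 := IsCMField.complexEmbedding_complexConj (K := P.E) ψ x
  have h2 := IsCMField.complexEmbedding_complexConj (K := P.E) ((σ : ℂ →+* ℂ).comp ψ) x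
  calc σ (starRingEnd ℂ (ψ x)) = σ (ψ (IsCMField.complexConj P.E x)) := by rw [h1]
    _ = starRingEnd ℂ (σ (ψ x)) := h2

/-- The sign of the conjugate embedding. -/
theorem sg_conj (P : CMPair) (σ : ℂ ≃+* ℂ) (ψ : P.E →+* ℂ) :
    sg P σ (ComplexEmbedding.conjugate ψ) = -sg P σ ψ := by
  unfold sg
  rw [comp_conj]
  by_cases h : (σ : ℂ →+* ℂ).comp ψ ∈ P.Φ
  · rw [if_pos h, if_neg ((P.isCMType _).1 h)]
  · rw [if_neg h, neg_neg, if_pos]
    by_contra h1
    exact h ((P.isCMType _).2 h1)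

theorem sg_odd (P : CMPair) (σ : ℂ ≃+* ℂ) (ψ : P.E →+* ℂ) : ∃ m : ℤ, sg P σ ψ = 2 * m + 1 := by
  unfold sg
  split_ifs
  · exact ⟨0, by norm_num⟩
  · exact ⟨-1, by norm_num⟩

/-- sums of signs have the parity of the number of summands -/
theorem parity {ι : Type*} (s : Finset ι) (f : ι → ℤ) (hf : ∀ i, ∃ m : ℤ, f i = 2 * m + 1) :
    ∃ m : ℤ, ∑ i ∈ s, f i = 2 * m + s.card := by
  choose m hm using hf
  refine ⟨∑ i ∈ s, m i, ?_⟩
  rw [Finset.sum_congr rfl fun i _ => hm i, Finset.sum_add_distrib, Finset.mul_sum]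
  simp

/-- The weights given by the sums property. -/
theorem exists_weights {K : Type} [Fintype K] (T : K → CMPair) (hT : SPF (Fn T Set.univ))
    (n ν : ℕ) (s : Fin (n + 2 * ν) → Σ k, ((T k).E →+* ℂ))
    (hs : ∀ σ : ℂ ≃+* ℂ, |∑ l, fn T (s l) σ| ≤ n) :
    ∃ t : Fin n → Σ k, ((T k).E →+* ℂ), ∀ σ : ℂ ≃+* ℂ,
      ∑ m, fn T (t m) σ = ∑ l, fn T (s l) σ := by
  classical
  -- the list
  obtain ⟨l, hl1, hl2, hl3⟩ := hT (∑ k, fn T (s k))
    (AddSubgroup.sum_mem _ fun k _ => AddSubgroup.subset_closure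
      ((mem_Fn T _ _).2 ⟨s k, trivial, rfl⟩)) n (fun σ => by
        rw [Finset.sum_apply]
        exact hs σ)
  -- as a list of weights
  have h1 : ∃ l' : List (Σ k, ((T k).E →+* ℂ)), l'.map (fn T) = l := by
    clear hl2 hl3
    induction l with
    | nil => exact ⟨[], rfl⟩
    | cons g l ih =>
      obtain ⟨l', rfl⟩ := ih fun g hg => hl1 g (List.mem_cons_of_mem _ hg)
      obtain ⟨x, -, hx⟩ := (mem_Fn T _ _).1 (hl1 g List.mem_cons_self)
      exact ⟨x :: l', by rw [List.map_cons, hx]⟩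
  obtain ⟨l', rfl⟩ := h1
  rw [List.length_map] at hl2
  -- sums over lists
  have hlist : ∀ (l : List (Σ k, ((T k).E →+* ℂ))) (σ : ℂ ≃+* ℂ),
      (l.map (fn T)).sum σ = ∑ i : Fin l.length, fn T (l.get i) σ := by
    intro l σ
    rw [← Fin.sum_univ_fun_getElem, Finset.sum_apply]
    rfl
  -- the parity
  have hpar : ∃ m : ℤ, (n : ℤ) - l'.length = 2 * m := by
    obtain ⟨m1, h1⟩ := parity Finset.univ (fun i : Fin l'.length => fn T (l'.get i)
      (RingEquiv.refl ℂ)) fun i => sg_odd _ _ _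
    obtain ⟨m2, h2⟩ := parity Finset.univ (fun i : Fin (n + 2 * ν) => fn T (s i)
      (RingEquiv.refl ℂ)) fun i => sg_odd _ _ _
    have h3 := congrFun hl3 (RingEquiv.refl ℂ)
    rw [hlist, Finset.sum_apply] at h3
    rw [Finset.card_univ, Fintype.card_fin] at h1 h2
    rw [h1, h2] at h3
    push_cast at h3
    exact ⟨m1 - m2 - ν, by linarith⟩
  obtain ⟨r, hr⟩ : ∃ r : ℕ, n = l'.length + 2 * r := by
    obtain ⟨m, hm⟩ := hpar
    refine ⟨m.toNat, ?_⟩
    omega
  -- padding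
  have hpad : ∃ l'' : List (Σ k, ((T k).E →+* ℂ)), l''.length = 2 * r ∧
      ∀ σ : ℂ ≃+* ℂ, (l''.map (fn T)).sum σ = 0 := by
    rcases Nat.eq_zero_or_pos r with h0 | h0
    · subst h0
      exact ⟨[], rfl, fun σ => rfl⟩
    · let x := s ⟨0, by omega⟩
      let x' : Σ k, ((T k).E →+* ℂ) := ⟨x.1, ComplexEmbedding.conjugate x.2⟩
      have hx : ∀ σ, fn T x σ + fn T x' σ = 0 := by
        intro σ
        change sg (T x.1) σ x.2 + sg (T x.1) σ (ComplexEmbedding.conjugate x.2) = 0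
        rw [sg_conj]
        ring
      refine ⟨List.replicate r x ++ List.replicate r x', ?_, fun σ => ?_⟩
      · rw [List.length_append, List.length_replicate, List.length_replicate]
        ring
      · rw [List.map_append, List.sum_append, List.map_replicate, List.map_replicate,
          List.sum_replicate, List.sum_replicate, Pi.add_apply, Pi.smul_apply, Pi.smul_apply,
          ← smul_add, hx, smul_zero]
  obtain ⟨l'', h2, h3⟩ := hpad
  have h4 : (l' ++ l'').length = n := by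
    rw [List.length_append, h2, ← hr]
  have h5 : ∀ σ : ℂ ≃+* ℂ, ((l' ++ l'').map (fn T)).sum σ = ∑ l, fn T (s l) σ := by
    intro σ
    rw [List.map_append, List.sum_append, Pi.add_apply, h3, add_zero, hl3, Finset.sum_apply]
  generalize l' ++ l'' = l3 at h4 h5
  have h6 : ∃ t : Fin n → Σ k, ((T k).E →+* ℂ), ∀ σ : ℂ ≃+* ℂ,
      ∑ m, fn T (t m) σ = (l3.map (fn T)).sum σ := by
    clear h5
    subst h4
    exact ⟨l3.get, fun σ => (hlist l3 σ).symm⟩
  obtain ⟨t, ht⟩ := h6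
  exact ⟨t, fun σ => (ht σ).trans (h5 σ)⟩

/-- Monomials of level at most `n`. -/
theorem mono_mem_CL (𝒜 : Sys) {K : Type} [Fintype K] (T : K → CMPair)
    (hT : SPF (Fn T Set.univ)) (hA : ∀ C : CMAV, (∀ i, ∃ k, C.factor i = T k) → 𝒜.AllHodge (av C))
    (XI : Type) [Fintype XI] (q : XI → K) (j : L →+* ℂ)
    (hj : ∀ k (ψ : (T k).E →+* ℂ), ∃ φ : (T k).E →+* L, j.comp φ = ψ) (n ν : ℕ)
    (I : Fin (n + 2 * ν) → Wt ⟨XI, fun i => T (q i)⟩ L)
    (hI : ∀ σ : ℂ ≃+* ℂ, |∑ l, sg (T (q (I l).1)) σ (j.comp (I l).2)| ≤ n) :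
    mono I ∈ CL 𝒜 ⟨XI, fun i => T (q i)⟩ L n (n + 2 * ν) := by
  classical
  obtain ⟨t, ht⟩ := exists_weights T hT n ν (fun l => ⟨q (I l).1, j.comp (I l).2⟩) hI
  have h1 : ∀ m, ∃ φ : (T (t m).1).E →+* L, j.comp φ = ComplexEmbedding.conjugate (t m).2 :=
    fun m => hj _ _
  choose φ hφ using h1
  let Y : CMAV := ⟨Fin n, fun m => T (t m).1⟩
  let X : CMAV := ⟨XI, fun i => T (q i)⟩
  let I' : Fin n → Wt Y L := fun m => ⟨m, φ m⟩
  let y : Fin n → Y.H1 := fun m => (Pi.single m 1 : ∀ m, (T (t m).1).E)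
  have hy : mono I' y = 1 := mono_single (fun m => T (t m).1) φ
  refine mono_mem_of_trForm' (Y := Y) I' I (fun α => ?_) y hy
  refine hA (Y.prod X) (fun s => ?_) _ _ (isHodge_trForm j _ (fun g => ?_) α)
  · rcases s with m | i
    · exact ⟨_, rfl⟩
    · exact ⟨_, rfl⟩
  · obtain ⟨σ, hσ⟩ := Pool.Agent.H977R3.CM.exists_aut j (g : L ≃+* L)
    have h2 : ∀ (E : CMPair) (ψ : E.E →+* L), j.comp (g • ψ) = (σ : ℂ →+* ℂ).comp (j.comp ψ) := by
      intro E ψ
      ext x
      exact (hσ (ψ x)).symm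
    rw [Fintype.sum_sum_type]
    have h3 : ∀ m : Fin n, (if g ∈ St j ((Sum.elim (fun m => wl Y X (I' m))
        (fun l => wr Y X (I l)) : Fin n ⊕ Fin (n + 2 * ν) → Wt (Y.prod X) L) (Sum.inl m))
          then (1 : ℤ) else -1) = -fn T (t m) σ := by
      intro m
      have e1 : (g ∈ St j ((Sum.elim (fun m => wl Y X (I' m))
        (fun l => wr Y X (I l)) : Fin n ⊕ Fin (n + 2 * ν) → Wt (Y.prod X) L) (Sum.inl m))) ↔
          (σ : ℂ →+* ℂ).comp (ComplexEmbedding.conjugate (t m).2) ∈ (T (t m).1).Φ := by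
        rw [← hφ m, ← h2 (T (t m).1) (φ m)]
        rfl
      have e2 : sg (T (t m).1) σ (ComplexEmbedding.conjugate (t m).2) = -fn T (t m) σ :=
        sg_conj _ _ _
      rw [← e2]
      unfold sg
      exact if_congr e1 rfl rfl
    have h4 : ∀ l : Fin (n + 2 * ν), (if g ∈ St j ((Sum.elim (fun m => wl Y X (I' m))
        (fun l => wr Y X (I l)) : Fin n ⊕ Fin (n + 2 * ν) → Wt (Y.prod X) L) (Sum.inr l))
          then (1 : ℤ) else -1) = fn T ⟨q (I l).1, j.comp (I l).2⟩ σ := by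
      intro l
      have e1 : (g ∈ St j ((Sum.elim (fun m => wl Y X (I' m))
        (fun l => wr Y X (I l)) : Fin n ⊕ Fin (n + 2 * ν) → Wt (Y.prod X) L) (Sum.inr l))) ↔
          (σ : ℂ →+* ℂ).comp (j.comp (I l).2) ∈ (T (q (I l).1)).Φ := by
        rw [← h2 (T (q (I l).1)) (I l).2]
        rfl
      unfold fn sg
      exact if_congr e1 rfl rfl
    rw [Finset.sum_congr rfl fun m _ => h3 m, Finset.sum_congr rfl fun l _ => h4 l,
      Finset.sum_neg_distrib, ht σ]
    ring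

end

end Pool.Agent.N178.GT
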