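import Mathlib
import Pool.Agent.N178.GT.Level
import Pool.Agent.W547.LF.Tate

/-!
# Forms on the Tate module: eigenvectors of the Frobenius element and descent
-/

set_option linter.unusedSectionVars false
set_option linter.unusedVariables false

namespace Pool.Agent.N178.GT

open Finset Module NumberField Polynomial
open Pool.Agent.H204R3.CM (func_coeff XX chi)
open Pool.Agent.W547.KB Pool.Agent.W530.NF
open Equiv (Perm)

noncomputable section

/-- Polynomials in an operator, on an eigenvector. -/
theorem aeval_eig {Θ M : Type*} [Field Θ] [AddCommGroup M] [Module Θ M] {S : Module.End Θ M}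
    {m : M} {a : Θ} (h : S m = a • m) (P : Θ[X]) : aeval S P m = P.eval a • m := by
  induction P using Polynomial.induction_on' with
  | add P Q hP hQ => rw [map_add, LinearMap.add_apply, hP, hQ, eval_add, add_smul]
  | monomial n c =>
    have h1 : ∀ n : ℕ, (S ^ n) m = a ^ n • m := by
      intro n
      induction n with
      | zero => simp
      | succ n ih =>
        rw [pow_succ, Module.End.mul_apply, h, map_smul, ih, smul_smul, pow_succ, mul_comm]
    rw [aeval_monomial, Module.End.mul_apply, h1, eval_monomial, Module.algebraMap_end_apply,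
      smul_smul]

/-- Polynomials in a restricted operator. -/
theorem aeval_restr {k W : Type*} [Field k] [AddCommGroup W] [Module k W] {T : Module.End k W}
    {U : Submodule k W} (hU : ∀ u ∈ U, T u ∈ U) (P : k[X]) (u : U) :
    ((aeval (T.restrict hU) P u : U) : W) = aeval T P (u : W) := by
  induction P using Polynomial.induction_on' with
  | add P Q hP hQ =>
    rw [map_add, map_add, LinearMap.add_apply, LinearMap.add_apply, Submodule.coe_add, hP, hQ]
  | monomial n c =>
    have h1 : ∀ n : ℕ, (((T.restrict hU) ^ n) u : W) = (T ^ n) (u : W) := by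
      intro n
      induction n with
      | zero => simp
      | succ n ih =>
        rw [pow_succ', Module.End.mul_apply, LinearMap.coe_restrict_apply, ih, pow_succ',
          Module.End.mul_apply]
    rw [aeval_monomial, aeval_monomial, Module.End.mul_apply, Module.End.mul_apply,
      Module.algebraMap_end_apply, Module.algebraMap_end_apply, Submodule.coe_smul, h1]

/-- Intertwining maps. -/
theorem aeval_comm {k Θ W M : Type*} [Field k] [Field Θ] [Algebra k Θ] [AddCommGroup W]
    [Module k W] [AddCommGroup M] [Module k M] [Module Θ M] [IsScalarTower k Θ M]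
    {T : Module.End k W} {S : Module.End Θ M} (E : W →ₗ[k] M) (h : ∀ u, E (T u) = S (E u))
    (P : k[X]) (u : W) : E (aeval T P u) = aeval S (P.map (algebraMap k Θ)) (E u) := by
  induction P using Polynomial.induction_on' with
  | add P Q hP hQ =>
    rw [map_add, LinearMap.add_apply, map_add, hP, hQ, Polynomial.map_add, map_add,
      LinearMap.add_apply]
  | monomial n c =>
    have h1 : ∀ n : ℕ, E ((T ^ n) u) = (S ^ n) (E u) := by
      intro n
      induction n with
      | zero => simp
      | succ n ih =>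
        rw [pow_succ', Module.End.mul_apply, h, ih, pow_succ', Module.End.mul_apply]
    rw [aeval_monomial, Module.End.mul_apply, Module.algebraMap_end_apply, map_smul, h1,
      Polynomial.map_monomial, aeval_monomial, Module.End.mul_apply,
      Module.algebraMap_end_apply, algebraMap_smul]

/-- Sums of eigenvectors: if a polynomial in the operator kills the sum, then the sum is in the span
of the eigenvectors whose eigenvalues are roots of the polynomial. -/
theorem mem_span_of_killed {Θ M ι : Type*} [Field Θ] [AddCommGroup M] [Module Θ M] [Fintype ι]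
    {S : Module.End Θ M} (m : ι → M) (a : ι → Θ) (h : ∀ i, S (m i) = a i • m i) (c : ι → Θ)
    (P : Θ[X]) {u : M} (hu : u = ∑ i, c i • m i) (hP : aeval S P u = 0) :
    u ∈ Submodule.span Θ (m '' {i | P.eval (a i) = 0}) := by
  classical
  let B : Finset ι := Finset.univ.filter fun i => P.eval (a i) ≠ 0
  let N : Θ[X] := ∏ i ∈ B, (X - C (a i))
  have hcop : IsCoprime P N := by
    refine IsCoprime.prod_right fun i hi => ?_
    rw [isCoprime_comm, (Polynomial.irreducible_X_sub_C (a i)).coprime_iff_not_dvd,
      Polynomial.dvd_iff_isRoot]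
    exact (Finset.mem_filter.1 hi).2
  obtain ⟨A, D, hAD⟩ := hcop
  have h1 : u = aeval S (D * N) u := by
    have h2 : aeval S (A * P + D * N) u = u := by
      rw [hAD, map_one, Module.End.one_apply]
    rw [map_add, LinearMap.add_apply, map_mul, Module.End.mul_apply, hP, map_zero, zero_add] at h2
    exact h2.symm
  rw [h1, hu, map_sum]
  refine Submodule.sum_mem _ fun i _ => ?_
  rw [map_smul, aeval_eig (h i)]
  by_cases hi : P.eval (a i) = 0
  · exact Submodule.smul_mem _ _ (Submodule.smul_mem _ _ (Submodule.subset_span ⟨i, hi, rfl⟩))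
  · have h3 : (D * N).eval (a i) = 0 := by
      rw [eval_mul, eval_prod, Finset.prod_eq_zero (Finset.mem_filter.2 ⟨Finset.mem_univ i, hi⟩),
        mul_zero]
      rw [eval_sub, eval_X, eval_C, sub_self]
    rw [h3, zero_smul, smul_zero]
    exact Submodule.zero_mem _

section forms

variable {L : Type} [Field L] [NumberField L] {X : CMAV} {κ : Type} [Fintype κ] [DecidableEq κ]

/-- The coefficients of a form with values in a field which contains `L`. -/
theorem form_coeffΘ {Θ : Type*} [Field Θ] [Algebra ℚ Θ] (ι : L →+* Θ) (j : L →+* ℂ)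
    (hj : ∀ i, ∀ ψ : (X.factor i).E →+* ℂ, ∃ φ : (X.factor i).E →+* L, j.comp φ = ψ)
    (f : MultilinearMap ℚ (fun _ : κ => X.H1) Θ) :
    ∃ c : (κ → Wt X L) → Θ, ∀ v : κ → X.H1,
      f v = ∑ I : κ → Wt X L, c I * ι (∏ l, ev (v l) (I l)) := by
  classical
  let b := Module.finBasis ℚ X.H1
  have h1 := fun s => func_coeff (E := fun i : X.I => (X.factor i).E) (fun i : X.I => i) j hj
    (b.coord s)
  choose a ha using h1
  refine ⟨fun I => ∑ r : κ → Fin (finrank ℚ X.H1), f (fun l => b (r l)) *
    ι (∏ l, a (r l) (I l)), fun v => ?_⟩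
  have h2 : f v = ∑ r : κ → Fin (finrank ℚ X.H1),
      (∏ l, b.coord (r l) (v l)) • f (fun l => b (r l)) := by
    have h3 : v = fun l => ∑ s, b.coord s (v l) • b s := by
      funext l
      exact (b.sum_repr (v l)).symm
    conv_lhs => rw [h3]
    rw [MultilinearMap.map_sum]
    refine Finset.sum_congr rfl fun r _ => ?_
    rw [MultilinearMap.map_smul_univ]
  rw [h2]
  simp only [Finset.sum_mul]
  rw [Finset.sum_comm]
  refine Finset.sum_congr rfl fun r _ => ?_
  have h4 : (((∏ l, b.coord (r l) (v l) : ℚ)) : L) =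
      ∑ I : κ → Wt X L, ∏ l, (a (r l) (I l) * ev (v l) (I l)) := by
    rw [Rat.cast_prod, Finset.prod_congr rfl (fun l _ => ha (r l) (v l)),
      Finset.prod_univ_sum, Fintype.piFinset_univ]
    rfl
  have h5 : (algebraMap ℚ Θ (∏ l, b.coord (r l) (v l)) : Θ) =
      ∑ I : κ → Wt X L, ι (∏ l, a (r l) (I l)) * ι (∏ l, ev (v l) (I l)) := by
    have h6 := congrArg ι h4
    rw [map_ratCast, map_sum] at h6
    rw [eq_ratCast, h6]
    refine Finset.sum_congr rfl fun I _ => ?_
    rw [← map_mul, Finset.prod_mul_distrib]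
  rw [Algebra.smul_def, h5, Finset.sum_mul]
  refine Finset.sum_congr rfl fun I _ => ?_
  ring

/-- Alternating forms are combinations of the monomials. -/
theorem alt_coeffΘ {Θ : Type*} [Field Θ] [Algebra ℚ Θ] (ι : L →+* Θ) (j : L →+* ℂ)
    (hj : ∀ i, ∀ ψ : (X.factor i).E →+* ℂ, ∃ φ : (X.factor i).E →+* L, j.comp φ = ψ)
    (f : X.H1 [⋀^κ]→ₗ[ℚ] Θ) :
    ∃ c : (κ → Wt X L) → Θ, ∀ v : κ → X.H1,
      f v = ∑ I : κ → Wt X L, c I * ι (mono I v) := by
  classical
  have : CharZero Θ := algebraRat.charZero Θ
  obtain ⟨c, hc⟩ := form_coeffΘ (X := X) ι j hj f.toMultilinearMap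
  have hne : ((Fintype.card (Perm κ) : ℕ) : Θ) ≠ 0 := Nat.cast_ne_zero.2 Fintype.card_ne_zero
  refine ⟨fun I => ((Fintype.card (Perm κ) : ℕ) : Θ)⁻¹ * c I, fun v => ?_⟩
  have h1 : ∀ σ : Perm κ, f v = ((Perm.sign σ : ℤ) : Θ) *
      ∑ I : κ → Wt X L, c I * ι (∏ k, ev (v (σ k)) (I k)) := by
    intro σ
    have h2 : f (fun k => v (σ k)) = ∑ I : κ → Wt X L, c I * ι (∏ k, ev (v (σ k)) (I k)) :=
      hc (fun k => v (σ k))
    rw [← h2]
    have h3 : f (fun k => v (σ k)) = Perm.sign σ • f v := f.map_perm v σ
    rw [h3, Units.smul_def, zsmul_eq_mul, ← mul_assoc, ← Int.cast_mul, ← Units.val_mul,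
      Int.units_mul_self, Units.val_one, Int.cast_one, one_mul]
  have h4 : ((Fintype.card (Perm κ) : ℕ) : Θ) * f v =
      ∑ I : κ → Wt X L, c I * ι (mono I v) := by
    have h5 : ((Fintype.card (Perm κ) : ℕ) : Θ) * f v =
        ∑ σ : Perm κ, ((Perm.sign σ : ℤ) : Θ) *
          ∑ I : κ → Wt X L, c I * ι (∏ k, ev (v (σ k)) (I k)) := by
      rw [← Finset.sum_congr rfl (fun σ _ => h1 σ), Finset.sum_const, Finset.card_univ,
        nsmul_eq_mul]
    rw [h5]
    simp only [Finset.mul_sum]
    rw [Finset.sum_comm]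
    refine Finset.sum_congr rfl fun I _ => ?_
    rw [mono_apply, map_sum, Finset.mul_sum]
    refine Finset.sum_congr rfl fun σ _ => ?_
    rw [map_mul, map_intCast]
    ring
  rw [← mul_right_inj' hne, h4, Finset.mul_sum]
  refine Finset.sum_congr rfl fun I _ => ?_
  rw [← mul_assoc, ← mul_assoc, mul_inv_cancel₀ hne, one_mul]

/-- The eigenvalue of the Frobenius element on a monomial. -/
def eigv (π : X.H1) (I : κ → Wt X L) : L := ∏ k, ev π (I k)

theorem mono_mul (π : X.H1) (I : κ → Wt X L) (v : κ → X.H1) :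
    mono I (fun k => π * v k) = eigv π I * mono I v := by
  rw [mono_apply, mono_apply, Finset.mul_sum]
  refine Finset.sum_congr rfl fun σ _ => ?_
  have h1 : ∀ k, ev (π * v (σ k)) (I k) = ev π (I k) * ev (v (σ k)) (I k) :=
    fun k => map_mul (I k).2 _ _
  rw [Finset.prod_congr rfl fun k _ => h1 k, Finset.prod_mul_distrib]
  unfold eigv
  ring

end forms

end

end Pool.Agent.N178.GT
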