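import Mathlib
import Pool.Agent.N178.GT.Span
import Pool.Agent.N178.GT.Frob

/-!
# The generalized Tate conjecture for abelian varieties of CM type: from the sums property
-/

set_option linter.unusedSectionVars false
set_option linter.unusedVariables false

namespace Pool.Agent.N178.GT

open Finset Module NumberField Polynomial Pool.Agent.N178.HX Pool.Agent.R915
open Pool.Agent.W547.KB Pool.Agent.W530.NF Pool.Agent.N492.HX
open Pool.Agent.N830.HC (av inlH inrH inlH_hom inrH_hom pair_bij)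

noncomputable section

/-- The operator `f ↦ f ∘ F` on the forms on `V`. -/
def frob {k V : Type} [Field k] [AddCommGroup V] [Module k V] (F : V →ₗ[k] V) (i : ℕ) :
    Module.End k (V [⋀^Fin i]→ₗ[k] k) where
  toFun f := f.compLinearMap F
  map_add' _ _ := rfl
  map_smul' _ _ := rfl

/-- The twist by `ν` of the number `β` is effective in degree `i`. -/
def Eff {Θ : Type} [Field Θ] (q i ν : ℕ) (β : Θ) : Prop :=
  IsIntegral ℤ (β / (q : Θ) ^ ν) ∧ IsIntegral ℤ ((q : Θ) ^ i / ((q : Θ) ^ ν * β))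

section level

variable {L : Type} [Field L] [NumberField L]

/-- The level of the weights of an eigenvalue. -/
theorem level_le {Θ : Type*} [Field Θ] {X : CMAV} (w : AbsoluteValue ℂ ℝ) (q : ℕ) (hq : q ≠ 0)
    (hw : w q < 1) (π : X.H1) (hST : ShimuraTaniyama X w q π) (ι : L →+* Θ) (j : L →+* ℂ)
    (n ν : ℕ) (I : Fin (n + 2 * ν) → Wt X L)
    (h1 : IsIntegral ℤ (ι (eigv π I) / (q : Θ) ^ ν))
    (h2 : IsIntegral ℤ ((q : Θ) ^ (n + 2 * ν) / ((q : Θ) ^ ν * ι (eigv π I)))) (σ : ℂ ≃+* ℂ) :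
    |∑ l, sg (X.factor (I l).1) σ (j.comp (I l).2)| ≤ n := by
  classical
  have hw0 : 0 < w q := w.pos (Nat.cast_ne_zero.2 hq)
  let p : Fin (n + 2 * ν) → Prop := fun l =>
    (σ : ℂ →+* ℂ).comp (j.comp (I l).2) ∈ (X.factor (I l).1).Φ
  let a : ℕ := (Finset.univ.filter p).card
  -- the absolute value of the eigenvalue
  have hα : w (σ (j (eigv π I))) = (w q) ^ a := by
    unfold eigv
    rw [map_prod, map_prod, map_prod]
    have h3 : ∀ l, w (σ (j (ev π (I l)))) = if p l then w q else 1 := by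
      intro l
      by_cases hl : p l
      · rw [if_pos hl]
        exact hST.mem _ _ hl
      · rw [if_neg hl]
        exact hST.not_mem _ _ hl
    rw [Finset.prod_congr rfl fun l _ => h3 l, Finset.prod_ite, Finset.prod_const,
      Finset.prod_const_one, mul_one]
  -- transfer of integrality
  have htr : ∀ z : L, IsIntegral ℤ (ι z) → w (σ (j z)) ≤ 1 := by
    intro z hz
    have h3 : IsIntegral ℤ z :=
      (isIntegral_algHom_iff (ι.toIntAlgHom) ι.injective).1 hz
    have h4 : IsIntegral ℤ (((σ : ℂ →+* ℂ).comp j) z) := h3.map ((σ : ℂ →+* ℂ).comp j).toIntAlgHom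
    exact abs_integral_le w hq hw h4
  have e1 : ν ≤ a := by
    have h3 := htr (eigv π I / (q : L) ^ ν) (by
      rw [map_div₀, map_pow, map_natCast]
      exact h1)
    rw [map_div₀, map_div₀, map_div₀, map_pow, map_pow, map_pow, map_natCast, map_natCast, hα,
      div_le_one (pow_pos hw0 _)] at h3
    exact (pow_le_pow_iff_right_of_lt_one₀ hw0 hw).1 h3
  have e2 : ν + a ≤ n + 2 * ν := by
    have h3 := htr ((q : L) ^ (n + 2 * ν) / ((q : L) ^ ν * eigv π I)) (by
      rw [map_div₀, map_mul, map_pow, map_pow, map_natCast]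
      exact h2)
    rw [map_div₀, map_div₀, map_div₀, map_mul, map_mul, map_mul, map_pow, map_pow, map_pow,
      map_pow, map_pow, map_pow, map_natCast, map_natCast, hα,
      div_le_one (mul_pos (pow_pos hw0 _) (pow_pos hw0 _)), ← pow_add] at h3
    exact (pow_le_pow_iff_right_of_lt_one₀ hw0 hw).1 h3
  -- the sum of the signs
  have h5 : ∑ l, sg (X.factor (I l).1) σ (j.comp (I l).2) = 2 * (a : ℤ) - (n + 2 * ν : ℕ) := by
    have h6 : ∀ l, sg (X.factor (I l).1) σ (j.comp (I l).2) = 2 * (if p l then (1 : ℤ) else 0) - 1 := by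
      intro l
      unfold sg
      by_cases hl : p l
      · rw [if_pos hl, if_pos hl]
        norm_num
      · rw [if_neg hl, if_neg hl]
        norm_num
    rw [Finset.sum_congr rfl fun l _ => h6 l, Finset.sum_sub_distrib, ← Finset.mul_sum,
      Finset.sum_boole]
    simp [a]
  rw [h5, abs_le]
  push_cast
  constructor <;> omega

end level

/-- The zero variety. -/
theorem zero_case (𝒜 : Sys) (X : CMAV) [IsEmpty X.I] {k V : Type} [Field k] [CharZero k]
    [AddCommGroup V] [Module k V] (C : Comparison X k V) (n ν : ℕ)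
    (u : V [⋀^Fin (n + 2 * ν)]→ₗ[k] k) :
    ∃ (r : ℕ) (c : Fin r → k) (g : Fin r → (av X).H [⋀^Fin (n + 2 * ν)]→ₗ[ℚ] ℚ),
      (∀ a, g a ∈ Cor 𝒜 (av X) n (n + 2 * ν)) ∧
      ∀ v : Fin (n + 2 * ν) → X.H1, u (fun l => C.ι (v l)) = ∑ a, c a * ((g a v : ℚ) : k) := by
  rcases Nat.eq_zero_or_pos (n + 2 * ν) with hm | hm
  · obtain rfl : n = 0 := by omega
    obtain rfl : ν = 0 := by omega
    have : IsEmpty (Fin (0 + 2 * 0)) := inferInstanceAs (IsEmpty (Fin 0))
    refine ⟨1, fun _ => u (fun k => isEmptyElim k), fun _ =>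
      AlternatingMap.constOfIsEmpty ℚ _ _ 1, fun _ => ?_, fun v => ?_⟩
    · refine Submodule.subset_span ⟨av X, av (X.prod X), inlH X X, inrH X X,
        AlternatingMap.constOfIsEmpty ℚ _ _ 1, fun m => m.elim0, inlH_hom X X, inrH_hom X X,
        pair_bij X X, 𝒜.unit _, fun x => ?_⟩
      rw [AlternatingMap.constOfIsEmpty_apply, AlternatingMap.constOfIsEmpty_apply]
      rfl
    · rw [Fin.sum_univ_one]
      have h1 : ((((AlternatingMap.constOfIsEmpty ℚ (av X).H (Fin (0 + 2 * 0)) (1 : ℚ)) v : ℚ)) : k)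
          = 1 := by
        rw [AlternatingMap.constOfIsEmpty_apply]
        exact Rat.cast_one
      refine Eq.trans ?_ ((congrArg (fun z : k => _ * z) h1).trans (mul_one _)).symm
      exact congrArg u (funext fun k => isEmptyElim k)
  · refine ⟨0, fun _ => 0, fun _ => 0, fun i => i.elim0, fun v => ?_⟩
    rw [Finset.univ_eq_empty, Finset.sum_empty]
    refine u.map_coord_zero (⟨0, hm⟩ : Fin (n + 2 * ν)) ?_
    have h1 : v ⟨0, hm⟩ = 0 := funext fun i => isEmptyElim i
    rw [h1, map_zero]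

/-- Monomials of small level, for a variety with factors in a family. -/
theorem mono_mem_CL' {L : Type} [Field L] [NumberField L] [IsCMField L] [IsGalois ℚ L]
    (𝒜 : Sys) {K : Type} [Fintype K] (T : K → CMPair)
    (hT : SPF (Fn T Set.univ)) (hA : ∀ C : CMAV, (∀ i, ∃ k, C.factor i = T k) → 𝒜.AllHodge (av C))
    (X : CMAV) (hX : ∀ i, ∃ k, X.factor i = T k) (j : L →+* ℂ)
    (hj : ∀ k (ψ : (T k).E →+* ℂ), ∃ φ : (T k).E →+* L, j.comp φ = ψ) (n ν : ℕ)
    (I : Fin (n + 2 * ν) → Wt X L)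
    (hI : ∀ σ : ℂ ≃+* ℂ, |∑ l, sg (X.factor (I l).1) σ (j.comp (I l).2)| ≤ n) :
    mono I ∈ CL 𝒜 X L n (n + 2 * ν) := by
  obtain ⟨XI, fac⟩ := X
  have hX' : ∀ i : XI, ∃ k, fac i = T k := hX
  choose κ hκ using hX'
  obtain rfl : fac = fun i => T (κ i) := funext hκ
  exact mono_mem_CL 𝒜 T hT hA XI κ j hj n ν I hI

/-- The generalized Tate conjecture, from the sums property and the Hodge conjecture. -/
theorem gtc {K : Type} [Fintype K] (T : K → CMPair) (hT : SPF (Fn T Set.univ)) (𝒜 : Sys)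
    (hA : ∀ C : CMAV, (∀ i, ∃ k, C.factor i = T k) → 𝒜.AllHodge (av C)) (X : CMAV)
    (hX : ∀ i, ∃ k, X.factor i = T k) {k V : Type} [Field k] [CharZero k]
    [AddCommGroup V] [Module k V] (C : Comparison X k V) (F : V →ₗ[k] V)
    (w : AbsoluteValue ℂ ℝ) (q : ℕ) (hq : q ≠ 0) (hw : w q < 1) (π : X.H1)
    (hST : ShimuraTaniyama X w q π) (hF : ∀ x, F (C.ι x) = C.ι (π * x)) (n ν : ℕ)
    (P : k[X]) (hE : ∀ β : AlgebraicClosure k, aeval β P = 0 → Eff q (n + 2 * ν) ν β)
    (u : V [⋀^Fin (n + 2 * ν)]→ₗ[k] k) (hu : aeval (frob F (n + 2 * ν)) P u = 0) :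
    ∃ (r : ℕ) (c : Fin r → k) (g : Fin r → (av X).H [⋀^Fin (n + 2 * ν)]→ₗ[ℚ] ℚ),
      (∀ a, g a ∈ Cor 𝒜 (av X) n (n + 2 * ν)) ∧
      ∀ v : Fin (n + 2 * ν) → X.H1, u (fun l => C.ι (v l)) = ∑ a, c a * ((g a v : ℚ) : k) := by
  classical
  rcases isEmpty_or_nonempty X.I with hI | hI
  · exact zero_case 𝒜 X C n ν u
  have hK : Nonempty K := ⟨(hX hI.some).choose⟩
  have : Nonempty (CMAV.I ⟨K, T⟩) := hK
  obtain ⟨L, _, _, _, _, j, hj⟩ := exists_cm ⟨K, T⟩
  let _ : Algebra ℚ k := DivisionRing.toRatAlgebra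
  let Θ := AlgebraicClosure k
  let ι : L →+* Θ := ((IsAlgClosed.lift : L →ₐ[ℚ] Θ) : L →+* Θ)
  have hjX : ∀ i, ∀ ψ : (X.factor i).E →+* ℂ, ∃ φ : (X.factor i).E →+* L, j.comp φ = ψ := by
    intro i
    obtain ⟨k, hk⟩ := hX i
    rw [hk]
    exact hj k
  let M : (Fin (n + 2 * ν) → Wt X L) → ((Fin (n + 2 * ν) → X.H1) → Θ) := fun I v => ι (mono I v)
  let S : Module.End Θ ((Fin (n + 2 * ν) → X.H1) → Θ) :=
    LinearMap.funLeft Θ Θ (fun v l => π * v l)
  let E : (V [⋀^Fin (n + 2 * ν)]→ₗ[k] k) →ₗ[k] ((Fin (n + 2 * ν) → X.H1) → Θ) :=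
    { toFun := fun u v => algebraMap k Θ (u (fun l => C.ι (v l)))
      map_add' := fun u u' => by
        funext v
        exact map_add _ _ _
      map_smul' := fun c u => by
        funext v
        exact (map_mul (algebraMap k Θ) _ _).trans (Algebra.smul_def c _).symm }
  have hES : ∀ u, E (frob F (n + 2 * ν) u) = S (E u) := by
    intro u
    funext v
    change algebraMap k Θ (u (fun l => F (C.ι (v l)))) = algebraMap k Θ (u (fun l => C.ι (π * v l)))
    simp only [hF]
  have hSM : ∀ I, S (M I) = ι (eigv π I) • M I := by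
    intro I
    funext v
    change ι (mono I (fun l => π * v l)) = ι (eigv π I) * ι (mono I v)
    rw [mono_mul, map_mul]
  -- the expansion
  obtain ⟨c, hc⟩ := alt_coeffΘ (X := X) ι j hjX
    (((algebraMap k Θ).toRatAlgHom.toLinearMap).compAlternatingMap (Pool.Agent.W547.LF.restr C u))
  have hEu : E u = ∑ I, c I • M I := by
    funext v
    rw [Finset.sum_apply]
    exact hc v
  -- the polynomial
  have hkill : aeval S (P.map (algebraMap k Θ)) (E u) = 0 := by
    rw [← aeval_comm E hES, hu, map_zero]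
  have h2 := mem_span_of_killed M (fun I => ι (eigv π I)) hSM c _ hEu hkill
  -- the span of the classes
  let G : Set ((Fin (n + 2 * ν) → X.H1) → Θ) :=
    {f | ∃ g ∈ Cor 𝒜 (av X) n (n + 2 * ν), ∀ v, f v = ((g v : ℚ) : Θ)}
  have h3 : E u ∈ Submodule.span Θ G := by
    refine Submodule.span_le.2 ?_ h2
    rintro _ ⟨I, hI, rfl⟩
    have h4 : aeval (ι (eigv π I)) P = 0 := by
      have h5 : (P.map (algebraMap k Θ)).eval (ι (eigv π I)) = 0 := hI
      rwa [eval_map_algebraMap] at h5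
    obtain ⟨h5, h6⟩ := hE _ h4
    have h7 := mono_mem_CL' 𝒜 T hT hA X hX j hj n ν I fun σ =>
      level_le (X := X) w q hq hw π hST ι j n ν I h5 h6 σ
    -- transfer from `L`
    have h8 : ∀ f ∈ CL 𝒜 X L n (n + 2 * ν), (fun v => ι (f v)) ∈ Submodule.span Θ G := by
      intro f hf
      unfold CL at hf
      induction hf using Submodule.span_induction with
      | mem f hf =>
        obtain ⟨g, hg, hfg⟩ := hf
        exact Submodule.subset_span ⟨g, hg, fun v =>
          (congrArg ι (hfg v)).trans (map_ratCast ι _)⟩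
      | zero =>
        have : (fun v : Fin (n + 2 * ν) → X.H1 => ι ((0 : (Fin (n + 2 * ν) → X.H1) → L) v)) =
            (0 : (Fin (n + 2 * ν) → X.H1) → Θ) := by
          funext v
          exact map_zero ι
        rw [this]
        exact Submodule.zero_mem _
      | add f f' _ _ h h' =>
        have : (fun v : Fin (n + 2 * ν) → X.H1 => ι ((f + f') v)) =
            (fun v => ι (f v)) + fun v => ι (f' v) := by
          funext v
          exact map_add ι _ _
        rw [this]
        exact Submodule.add_mem _ h h'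
      | smul a f _ h =>
        have : (fun v : Fin (n + 2 * ν) → X.H1 => ι ((a • f) v)) = ι a • fun v => ι (f v) := by
          funext v
          exact map_mul ι _ _
        rw [this]
        exact Submodule.smul_mem _ _ h
    exact h8 _ h7
  -- descent
  obtain ⟨ρ, hρ⟩ := LinearMap.exists_leftInverse_of_injective (Algebra.linearMap k Θ)
    (LinearMap.ker_eq_bot.2 (FaithfulSMul.algebraMap_injective k Θ))
  rw [Submodule.mem_span_set'] at h3
  obtain ⟨r, ω, f, hsum⟩ := h3
  have hf : ∀ a, ∃ g ∈ Cor 𝒜 (av X) n (n + 2 * ν), ∀ v, (f a : (Fin (n + 2 * ν) → X.H1) → Θ) v =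
      ((g v : ℚ) : Θ) := fun a => (f a).2
  choose g hg hfg using hf
  refine ⟨r, fun a => ρ (ω a), g, hg, fun v => ?_⟩
  have h4 := congrFun hsum v
  rw [Finset.sum_apply] at h4
  have h5 : ρ (E u v) = u (fun l => C.ι (v l)) := by
    have := LinearMap.congr_fun hρ (u (fun l => C.ι (v l)))
    exact this
  rw [← h5, ← h4, map_sum]
  refine Finset.sum_congr rfl fun a _ => ?_
  have h6 : (ω a • (f a : (Fin (n + 2 * ν) → X.H1) → Θ)) v = ((g a v : ℚ) : k) • ω a := by
    rw [Pi.smul_apply, hfg, smul_eq_mul, Algebra.smul_def, map_ratCast, mul_comm]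
  rw [h6, map_smul, smul_eq_mul, mul_comm]

end

end Pool.Agent.N178.GT
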