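import Mathlib
import Pool.Agent.N178.GT.Main

/-!
# The generalized Tate conjecture for abelian varieties with independent complex multiplications
-/

set_option linter.unusedSectionVars false

namespace Pool.Agent.N178.GT

open Finset Module NumberField Polynomial Pool.Agent.N178.HX Pool.Agent.R915
open Pool.Agent.W547.KB Pool.Agent.W530.NF Pool.Agent.N178.HX.CovH
open Pool.Agent.N830.HC (Frame av)

noncomputable section

/-- The generalized Tate conjecture, from the statements on families of CM types. -/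
theorem blocks (hPROD : S_PROD) (hSPF : S_SPF) (hLOW : S_LOW) (hSPI : S_SPI) (hSPG : S_SPG)
    (hSPB : S_SPB) {K J : Type} [Fintype K] (T : K → CMPair) (b : K → J) (hI : IndB T b)
    (hOK : ∀ j, BlkOKH T {k | b k = j}) (𝒜 : Sys)
    (hF : ∀ j (B : CMPair) (F : Frame B), 6 < finrank ℚ F.L → GalB T {k | b k = j} F.L → F.In 𝒜)
    (X : CMAV) (hX : ∀ i, ∃ k, X.factor i = T k) {k V : Type} [Field k] [CharZero k]
    [AddCommGroup V] [Module k V] (C : Comparison X k V) (F : V →ₗ[k] V)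
    (w : AbsoluteValue ℂ ℝ) (q : ℕ) (hq : q ≠ 0) (hw : w q < 1) (π : X.H1)
    (hST : ShimuraTaniyama X w q π) (hFr : ∀ x, F (C.ι x) = C.ι (π * x)) (n ν : ℕ)
    (P : k[X]) (hE : ∀ β : AlgebraicClosure k, aeval β P = 0 → Eff q (n + 2 * ν) ν β)
    (u : V [⋀^Fin (n + 2 * ν)]→ₗ[k] k) (hu : aeval (frob F (n + 2 * ν)) P u = 0) :
    ∃ (r : ℕ) (c : Fin r → k) (g : Fin r → (av X).H [⋀^Fin (n + 2 * ν)]→ₗ[ℚ] ℚ),
      (∀ a, g a ∈ Cor 𝒜 (av X) n (n + 2 * ν)) ∧
      ∀ v : Fin (n + 2 * ν) → X.H1, u (fun l => C.ι (v l)) = ∑ a, c a * ((g a v : ℚ) : k) := by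
  obtain ⟨K', _, T', h1, h2, h3⟩ := covH hPROD hSPF hLOW hSPI hSPG hSPB T b hI hOK
  refine gtc T' ((hSPF T' Set.univ).1 h2) 𝒜 (h3 𝒜 hF) X (fun i => ?_) C F w q hq hw π hST hFr n ν P
    hE u hu
  obtain ⟨k, hk⟩ := hX i
  obtain ⟨k', hk'⟩ := h1 k
  exact ⟨k', by rw [hk, hk']⟩

end

end Pool.Agent.N178.GT
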