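import Mathlib
import Pool.Agent.N178.GT.Blocks
import Pool.Agent.N178.HX.SPG
import Pool.Agent.N400.HX.SPI
import Pool.Agent.N383.HX.L3
import Pool.Agent.N691.GHC.KCH
import Pool.Agent.N475.HX.LOW
import Pool.Agent.N776.HX.Prod

/-!
# The generalized Tate conjecture for abelian varieties with independent complex multiplications
-/

set_option linter.unusedSectionVars false

namespace Pool.Agent.N178.GT

open Finset Module NumberField Polynomial Pool.Agent.N178.HX Pool.Agent.R915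
open Pool.Agent.W547.KB Pool.Agent.W530.NF Pool.Agent.N178.HX.CovH
open Pool.Agent.N830.HC (Frame av)

noncomputable section

/-- The generalized Tate conjecture. -/
theorem final {K J : Type} [Fintype K] (T : K → CMPair) (b : K → J) (hI : IndB T b)
    (hOK : ∀ j, BlkOKH T {k | b k = j}) (𝒜 : Sys)
    (hF : ∀ j (B : CMPair) (F : Frame B), 6 < finrank ℚ F.L → GalB T {k | b k = j} F.L → F.In 𝒜)
    (X : CMAV) (hX : ∀ i, ∃ k, X.factor i = T k) {k V : Type} [Field k] [CharZero k]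
    [AddCommGroup V] [Module k V] (C : Comparison X k V) (F : V →ₗ[k] V)
    (w : AbsoluteValue ℂ ℝ) (q : ℕ) (hq : q ≠ 0) (hw : w q < 1) (π : X.H1)
    (hST : ShimuraTaniyama X w q π) (hFr : ∀ x, F (C.ι x) = C.ι (π * x)) (n ν : ℕ)
    (P : k[X]) (hE : ∀ β : AlgebraicClosure k, aeval β P = 0 → Eff q (n + 2 * ν) ν β)
    (u : V [⋀^Fin (n + 2 * ν)]→ₗ[k] k) (hu : aeval (frob F (n + 2 * ν)) P u = 0) :
    ∃ (r : ℕ) (c : Fin r → k) (g : Fin r → (av X).H [⋀^Fin (n + 2 * ν)]→ₗ[ℚ] ℚ),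
      (∀ a, g a ∈ Cor 𝒜 (av X) n (n + 2 * ν)) ∧
      ∀ v : Fin (n + 2 * ν) → X.H1, u (fun l => C.ι (v l)) = ∑ a, c a * ((g a v : ℚ) : k) :=
  blocks Pool.Agent.N776.HX.t_PROD Pool.Agent.N492.HX.t_SPF
    (Pool.Agent.N475.HX.t_LOW Pool.Agent.N383.HX.t_L3 Pool.Agent.N691.GHC.t_KCH)
    Pool.Agent.N400.HX.t_SPI Pool.Agent.N178.HX.SPG.t_SPG Pool.Agent.N400.HX.t_SPB T b hI hOK 𝒜 hF
    X hX C F w q hq hw π hST hFr n ν P hE u hu

end

end Pool.Agent.N178.GT
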